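import Pool.Agent.K3h5.FF.Stm

/-!
# Project FF: brick EXPP
-/

set_option autoImplicit false

open MeasureTheory Filter Topology ProbabilityTheory Set

namespace Pool.Agent.K3h94.FF

open Pool.Agent.K3h5.FF

/-- The event that the numbers of points are large enough. -/
def Aev {Ω : Type} (Y : Idx → Ω → ℝ) {l : ℕ} (u : Fin l → Label) (c : Fin l → ℕ) : Set Ω :=
  {ω | ∀ i k, u i = Sum.inl k → ((c i : ℕ) : ℝ) < Y (Sum.inl k) ω}

/-- The event that the points are in the right order. -/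
def Bev {Ω : Type} (Y : Idx → Ω → ℝ) {l : ℕ} (u : Fin l → Label) (c : Fin l → ℕ) : Set Ω :=
  {ω | StrictMono (fun i => Y (Sum.inr (ix u c i)) ω)}

/-- The index type of the assignments. -/
abbrev Tix {l : ℕ} (u : Fin l → Label) : Type :=
  {c : Fin l → ℕ // c ∈ Asg u ∧ Function.Injective (ix u c)}

theorem meas_Aev {Ω : Type} [MeasurableSpace Ω] (Y : Idx → Ω → ℝ) (hY : ∀ i, Measurable (Y i))
    {l : ℕ} (u : Fin l → Label) (c : Fin l → ℕ) : MeasurableSet (Aev Y u c) := by
  have h : Aev Y u c = ⋂ i, ⋂ k : ℤ, ⋂ (_ : u i = Sum.inl k),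
      {ω | ((c i : ℕ) : ℝ) < Y (Sum.inl k) ω} := by
    ext ω
    simp [Aev]
  rw [h]
  exact MeasurableSet.iInter fun i => MeasurableSet.iInter fun k =>
    MeasurableSet.iInter fun _ => measurableSet_lt measurable_const (hY _)

theorem meas_Bev {Ω : Type} [MeasurableSpace Ω] (Y : Idx → Ω → ℝ) (hY : ∀ i, Measurable (Y i))
    {l : ℕ} (u : Fin l → Label) (c : Fin l → ℕ) : MeasurableSet (Bev Y u c) := by
  have h : Bev Y u c = ⋂ i, ⋂ j, ⋂ (_ : i < j),
      {ω | Y (Sum.inr (ix u c i)) ω < Y (Sum.inr (ix u c j)) ω} := by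
    ext ω
    simp [Bev, StrictMono]
  rw [h]
  exact MeasurableSet.iInter fun i => MeasurableSet.iInter fun k =>
    MeasurableSet.iInter fun _ => measurableSet_lt (hY _) (hY _)

/-- The number of occurrences as a sum of indicators. -/
theorem count_eq (hD : S_DET) {Ω : Type} (Y : Idx → Ω → ℝ) {l : ℕ} (u : Fin l → Label)
    (hu : FrontInj u) (ω : Ω) (hn : Nice (fun i => Y i ω)) :
    (((occ (LabS (rootS fun i => Y i ω)) u).ncard : ℕ) : ENNReal) =
      ∑' c : Tix u, (Aev Y u c.1 ∩ Bev Y u c.1).indicator (fun _ => (1 : ENNReal)) ω := by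
  classical
  have hd := (hD _ hn).2.2.2.2.1 l u hu
  set E : Set (Fin l → ℕ) := {c | c ∈ Asg u ∧ Function.Injective (ix u c) ∧
      (∀ i k, u i = Sum.inl k → (c i : ℝ) < (fun i => Y i ω) (Sum.inl k)) ∧
      StrictMono (fun i => (fun i => Y i ω) (Sum.inr (ix u c i)))} with hE
  choose N hN using hn.2.2
  have hfin : E.Finite := by
    have h1 : {f : Fin l → ℕ | ∀ i, f i ∈ (Set.Iio (Sum.elim N (fun _ => 1) (u i)) : Set ℕ)}.Finite :=
      Set.Finite.pi' fun i => Set.finite_Iio _
    refine h1.subset ?_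
    rintro c ⟨hc1, -, hc3, -⟩ i
    rw [Set.mem_Iio]
    rcases hi : u i with k | j
    · have h2 := hc3 i k hi
      have h3 := hN k
      simp only at h2 h3
      rw [h3] at h2
      simpa using (by exact_mod_cast h2 : c i < N k)
    · rw [hc1 i j hi]
      simp
  rw [hd]
  have h4 : (∑' c : Tix u, (Aev Y u c.1 ∩ Bev Y u c.1).indicator (fun _ => (1 : ENNReal)) ω) =
      ∑' c : Tix u, E.indicator (fun _ => (1 : ENNReal)) c.1 := by
    refine tsum_congr fun c => ?_
    by_cases hc : ω ∈ Aev Y u c.1 ∩ Bev Y u c.1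
    · rw [Set.indicator_of_mem hc, Set.indicator_of_mem]
      exact ⟨c.2.1, c.2.2, hc.1, hc.2⟩
    · rw [Set.indicator_of_notMem hc, Set.indicator_of_notMem]
      rintro ⟨-, -, h5, h6⟩
      exact hc ⟨h5, h6⟩
  rw [h4]
  have h5 : (∑' c : Tix u, E.indicator (fun _ => (1 : ENNReal)) c.1) =
      ∑' c : Fin l → ℕ, E.indicator (fun _ => (1 : ENNReal)) c := by
    have h6 := tsum_subtype ({c : Fin l → ℕ | c ∈ Asg u ∧ Function.Injective (ix u c)})
      (E.indicator (fun _ => (1 : ENNReal)))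
    have h7 : ({c : Fin l → ℕ | c ∈ Asg u ∧ Function.Injective (ix u c)}).indicator
        (E.indicator (fun _ => (1 : ENNReal))) = E.indicator (fun _ => (1 : ENNReal)) := by
      rw [Set.indicator_indicator]
      congr 1
      exact Set.inter_eq_right.2 fun c hc => ⟨hc.1, hc.2.1⟩
    rw [h7] at h6
    exact h6
  rw [h5, tsum_eq_sum (s := hfin.toFinset)]
  · rw [Finset.sum_congr rfl (g := fun _ => (1 : ENNReal))]
    · rw [Finset.sum_const, Set.ncard_eq_toFinset_card E hfin]
      simp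
    · intro c hc
      exact Set.indicator_of_mem (hfin.mem_toFinset.1 hc) _
  · intro c hc
    exact Set.indicator_of_notMem (fun h => hc (hfin.mem_toFinset.2 h)) _

theorem mass_pos {P : (n : ℕ) → Equiv.Perm (Fin n) → ℝ} {lam : ℤ → ℝ → ℝ} {phi : ℝ → ℝ}
    (hM : Model P lam phi) (a : Label) : 0 < mass lam a := by
  rcases a with k | j
  · simp only [mass]
    apply intervalIntegral.intervalIntegral_pos_of_pos_on
    · apply ContinuousOn.intervalIntegrable
      rw [Set.uIcc_of_le zero_le_one]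
      exact hM.lam_cont k
    · intro x hx
      exact hM.lam_pos k x (Set.Ioo_subset_Icc_self hx)
    · exact zero_lt_one
  · simp [mass]

theorem t_EXPP : S_NICE → S_DET → S_EXA → S_EXB → S_EXPP := by
  intro hNi hD hA hB P lam phi hM Ω _ μ Y hR l u
  have hn := hNi lam phi Ω μ Y hR
  by_cases hu : FrontInj u
  · have hae : (fun ω => (((occ (LabS (rootS fun i => Y i ω)) u).ncard : ℕ) : ENNReal)) =ᵐ[μ]
        fun ω => ∑' c : Tix u,
          (Aev Y u c.1 ∩ Bev Y u c.1).indicator (fun _ => (1 : ENNReal)) ω := by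
      filter_upwards [hn] with ω hω
      exact count_eq hD Y u hu ω hω
    have hms : ∀ c : Tix u, MeasurableSet (Aev Y u c.1 ∩ Bev Y u c.1) := fun c =>
      (meas_Aev Y hR.meas u c.1).inter (meas_Bev Y hR.meas u c.1)
    have hmf : ∀ c : Tix u, Measurable
        ((Aev Y u c.1 ∩ Bev Y u c.1).indicator (fun _ => (1 : ENNReal))) := fun c =>
      measurable_const.indicator (hms c)
    have hmeas : Measurable (fun ω => ∑' c : Tix u,
          (Aev Y u c.1 ∩ Bev Y u c.1).indicator (fun _ => (1 : ENNReal)) ω) :=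
      Measurable.ennreal_tsum hmf
    refine ⟨⟨_, hmeas, hae⟩, ?_⟩
    rw [lintegral_congr_ae hae, lintegral_tsum fun c => (hmf c).aemeasurable]
    have h1 : ∀ c : Tix u, ∫⁻ ω, (Aev Y u c.1 ∩ Bev Y u c.1).indicator
        (fun _ => (1 : ENNReal)) ω ∂μ = μ (Aev Y u c.1 ∩ Bev Y u c.1) := by
      intro c
      rw [lintegral_indicator (hms c)]
      simp
    simp only [h1]
    set M : ENNReal := ∏ i, ENNReal.ofReal (mass lam (u i)) with hMdef
    have hM0 : M ≠ 0 := by
      rw [hMdef, Finset.prod_ne_zero_iff]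
      intro i _
      exact (ENNReal.ofReal_pos.2 (mass_pos hM (u i))).ne'
    have hMt : M ≠ ⊤ := by
      rw [hMdef]
      exact ENNReal.prod_ne_top fun i _ => ENNReal.ofReal_ne_top
    have hEA := hA lam phi Ω μ Y hR l u
    rw [if_pos hu] at hEA
    have hEB : ∀ c : Tix u, μ (Aev Y u c.1 ∩ Bev Y u c.1) * M =
        μ (Aev Y u c.1) * ENNReal.ofReal (mom lam phi u) := fun c =>
      hB lam phi Ω μ Y hR hM.lam_cont hM.lam_pos hM.phi_cont hM.phi_pos l u hu c.1 c.2.2
    have h2 : (∑' c : Tix u, μ (Aev Y u c.1 ∩ Bev Y u c.1)) * M =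
        ENNReal.ofReal (mom lam phi u) * M := by
      rw [← ENNReal.tsum_mul_right]
      simp only [hEB]
      rw [ENNReal.tsum_mul_right, mul_comm]
      congr 1
    exact (ENNReal.mul_left_inj hM0 hMt).1 h2
  · have hae : (fun ω => (((occ (LabS (rootS fun i => Y i ω)) u).ncard : ℕ) : ENNReal)) =ᵐ[μ]
        fun _ => 0 := by
      filter_upwards [hn] with ω hω
      rw [(hD _ hω).2.2.2.2.2 l u hu]
      simp
    refine ⟨⟨_, measurable_const, hae⟩, ?_⟩
    rw [lintegral_congr_ae hae]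
    simp [mom, hu]

end Pool.Agent.K3h94.FF
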